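import Pool.Agent.H491R3.PE.Near

/-!
# Metric theory of near-coincidences: the exceptional set has Hausdorff dimension zero
-/

set_option autoImplicit false

namespace Pool.Agent.Y923.NC

open Real Filter Set MeasureTheory Measure
open scoped ENNReal NNReal Topology

/-- bases `b` in `[lo, hi]` for which `(n, m)` is a near miss -/
def J (a lo hi : ℝ) (n m : ℕ) : Set ℝ := {b | lo ≤ b ∧ b ≤ hi ∧ |a ^ n - b ^ m| ^ 2 < a ^ n}

theorem J_bound {a lo hi : ℝ} (ha : 1 < a) (hlo : 1 < lo) {n m : ℕ} (h2 : 2 ≤ √a ^ n) {b : ℝ}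
    (hb : b ∈ J a lo hi n m) : √a ^ n * (√a ^ n - 1) < b ^ m ∧ b ^ m < √a ^ n * (√a ^ n + 1) := by
  obtain ⟨-, -, h⟩ := hb
  set s := √a ^ n with hs
  have hsa : a ^ n = s ^ 2 := by
    rw [hs, ← pow_mul, mul_comm, pow_mul, Real.sq_sqrt (by linarith)]
  rw [hsa] at h
  have hs0 : 0 ≤ s := by linarith
  have h1 : |s ^ 2 - b ^ m| < s := lt_of_pow_lt_pow_left₀ 2 hs0 h
  rw [abs_lt] at h1
  constructor <;> nlinarith

theorem J_dist {a lo hi : ℝ} (ha : 1 < a) (hlo : 1 < lo) {n m : ℕ} (h2 : 2 ≤ √a ^ n) {b b' : ℝ}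
    (hb : b ∈ J a lo hi n m) (hb' : b' ∈ J a lo hi n m) : b - b' ≤ 4 * hi / √a ^ n := by
  have k1 := J_bound ha hlo h2 hb
  have k2 := J_bound ha hlo h2 hb'
  set s := √a ^ n with hs
  have hb1 : 1 < b := lt_of_lt_of_le hlo hb.1
  have hb1' : 1 < b' := lt_of_lt_of_le hlo hb'.1
  have hhi : 1 < hi := lt_of_lt_of_le hb1 hb.2.1
  rcases le_total b b' with hle | hle
  · have : 0 ≤ 4 * hi / s := by positivity
    linarith
  -- `m ≥ 1`
  have hm : m ≠ 0 := by
    rintro rfl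
    simp only [pow_zero] at k1
    nlinarith [k1.1]
  have hq : b ≤ b' * (1 + 4 / s) := by
    have hr : 1 ≤ b / b' := by rw [le_div_iff₀ (by linarith)]; linarith
    have h3 : b / b' ≤ (b / b') ^ m := le_self_pow₀ hr hm
    have h4 : (b / b') ^ m ≤ 1 + 4 / s := by
      rw [div_pow, div_le_iff₀ (by positivity)]
      have h5 : s * (s + 1) ≤ (1 + 4 / s) * (s * (s - 1)) := by
        have : (1 + 4 / s) * (s * (s - 1)) = (s + 4) * (s - 1) := by
          have : s ≠ 0 := by linarith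
          field_simp
        rw [this]
        nlinarith
      have h6 : 0 ≤ 1 + 4 / s := by positivity
      nlinarith [k1.2, k2.1, mul_le_mul_of_nonneg_left k2.1.le h6]
    have h7 := h3.trans h4
    rw [div_le_iff₀ (by linarith)] at h7
    linarith
  have h8 : b' * (1 + 4 / s) = b' + b' * (4 / s) := by ring
  have h9 : b' * (4 / s) ≤ 4 * hi / s := by
    rw [mul_div_assoc', div_le_div_iff_of_pos_right (by linarith)]
    have := hb'.2.1
    linarith
  linarith

theorem J_ediam {a lo hi : ℝ} (ha : 1 < a) (hlo : 1 < lo) {n m : ℕ} (h2 : 2 ≤ √a ^ n) :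
    Metric.ediam (J a lo hi n m) ≤ ENNReal.ofReal (4 * hi * (√a)⁻¹ ^ n) := by
  refine Metric.ediam_le fun b hb b' hb' => ?_
  rw [edist_dist, Real.dist_eq]
  apply ENNReal.ofReal_le_ofReal
  have h1 := J_dist ha hlo h2 hb hb'
  have h2' := J_dist ha hlo h2 hb' hb
  rw [inv_pow, ← div_eq_mul_inv]
  rw [abs_le]
  constructor <;> linarith

/-- the number of `m` is at most linear in `n` -/
theorem J_m {a lo hi : ℝ} (ha : 1 < a) (hlo : 1 < lo) {M : ℕ} (hM : a ^ 2 ≤ lo ^ M) {n m : ℕ}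
    (h2 : 2 ≤ √a ^ n) {b : ℝ} (hb : b ∈ J a lo hi n m) : m ≤ M * n := by
  have k1 := J_bound ha hlo h2 hb
  by_contra hcon
  push Not at hcon
  have h3 : lo ^ (M * n) ≤ b ^ m := by
    calc lo ^ (M * n) ≤ b ^ (M * n) := pow_le_pow_left₀ (by linarith) hb.1 _
      _ ≤ b ^ m := pow_le_pow_right₀ (by linarith [hb.1]) hcon.le
  have h4 : (√a ^ n) ^ 4 ≤ lo ^ (M * n) := by
    rw [pow_mul lo M n]
    calc (√a ^ n) ^ 4 = (a ^ 2) ^ n := by
          rw [← pow_mul, mul_comm n 4, pow_mul]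
          congr 1
          rw [show (4 : ℕ) = 2 * 2 by norm_num, pow_mul, Real.sq_sqrt (by linarith)]
      _ ≤ (lo ^ M) ^ n := pow_le_pow_left₀ (by positivity) hM n
  set s := √a ^ n
  nlinarith [k1.2, mul_self_nonneg (s - 1), mul_self_nonneg (s ^ 2 - s)]

/-- bases in `[lo, hi]` with infinitely many near misses -/
def E (a lo hi : ℝ) : Set ℝ := {b | lo ≤ b ∧ b ≤ hi ∧ (Pool.Agent.H491R3.PE.SS a b).Infinite}

theorem E_sub {a lo hi : ℝ} (ha : 1 < a) (hlo : 1 < lo) {b : ℝ} (hb : b ∈ E a lo hi) (N : ℕ) :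
    ∃ n ≥ N, ∃ m, b ∈ J a lo hi n m := by
  by_contra hcon
  push Not at hcon
  apply hb.2.2
  have hb1 : 1 < b := lt_of_lt_of_le hlo hb.1
  obtain ⟨K, hK⟩ := pow_unbounded_of_one_lt (a ^ N + a ^ N) hb1
  refine Set.Finite.subset ((Set.finite_Iio N).prod (Set.finite_Iio K)) ?_
  rintro ⟨n, m⟩ ⟨h1, h2⟩
  simp only at h1 h2
  have hn : n < N := by
    by_contra hn
    push Not at hn
    exact hcon n hn m ⟨hb.1, hb.2.1, h2⟩
  refine ⟨hn, ?_⟩
  show m < K
  by_contra hm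
  push Not at hm
  have h3 : b ^ K ≤ b ^ m := pow_le_pow_right₀ hb1.le hm
  have h4 : a ^ n ≤ a ^ N := pow_le_pow_right₀ ha.le hn.le
  have h5 : 1 ≤ a ^ n := one_le_pow₀ ha.le
  have h6 : |a ^ n - b ^ m| ^ 2 < (a ^ n) ^ 2 := by nlinarith
  have h7 : |a ^ n - b ^ m| < a ^ n := lt_of_pow_lt_pow_left₀ 2 (by linarith) h6
  rw [abs_lt] at h7
  linarith

theorem haus_E {a lo hi : ℝ} (ha : 1 < a) (hlo : 1 < lo) (hhi : 0 < hi) {d : ℝ} (hd : 0 < d) :
    μH[d] (E a lo hi) = 0 := by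
  have hs : 1 < √a := Pool.Agent.H491R3.PE.sqrt_gt ha
  obtain ⟨M, hM⟩ : ∃ M : ℕ, a ^ 2 ≤ lo ^ M :=
    (pow_unbounded_of_one_lt (a ^ 2) hlo).imp fun _ h => h.le
  obtain ⟨n0, hn0⟩ := pow_unbounded_of_one_lt 2 hs
  have h2 : ∀ n, n0 ≤ n → 2 ≤ √a ^ n := fun n hn =>
    hn0.le.trans (pow_le_pow_right₀ hs.le hn)
  set r : ℝ := (√a)⁻¹ with hr
  have hr0 : 0 < r := by positivity
  have hr1 : r < 1 := inv_lt_one_of_one_lt₀ hs
  -- the series
  set f : ℕ → ℝ≥0∞ := fun n => ((M * n + 1 : ℕ) : ℝ≥0∞) * ENNReal.ofReal (4 * hi * r ^ n) ^ d with hf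
  have hfr : ∀ n, f n = ENNReal.ofReal (((M * n + 1 : ℕ) : ℝ) * (4 * hi * r ^ n) ^ d) := by
    intro n
    rw [hf]
    simp only
    rw [ENNReal.ofReal_rpow_of_nonneg (by positivity) hd.le, ENNReal.ofReal_mul (by positivity),
      ENNReal.ofReal_natCast]
  have hsum : Summable fun n : ℕ => ((M * n + 1 : ℕ) : ℝ) * (4 * hi * r ^ n) ^ d := by
    have hrd0 : 0 < r ^ d := Real.rpow_pos_of_pos hr0 d
    have hrd1 : r ^ d < 1 := Real.rpow_lt_one hr0.le hr1 hd
    have e : (fun n : ℕ => ((M * n + 1 : ℕ) : ℝ) * (4 * hi * r ^ n) ^ d) =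
        fun n : ℕ => (4 * hi) ^ d * (M * ((n : ℝ) ^ 1 * (r ^ d) ^ n) + (r ^ d) ^ n) := by
      funext n
      rw [Real.mul_rpow (by positivity) (by positivity)]
      have : (r ^ n) ^ d = (r ^ d) ^ n := by
        rw [← Real.rpow_natCast r n, ← Real.rpow_mul hr0.le, mul_comm, Real.rpow_mul hr0.le,
          Real.rpow_natCast]
      rw [this]
      push_cast
      ring
    rw [e]
    refine Summable.mul_left _ (Summable.add (Summable.mul_left _ ?_) ?_)
    · exact summable_pow_mul_geometric_of_norm_lt_one 1 (by rwa [Real.norm_of_nonneg hrd0.le])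
    · exact summable_geometric_of_lt_one hrd0.le hrd1
  have hfsum : ∑' n, f n ≠ ∞ := by
    have : ∑' n, f n = ENNReal.ofReal (∑' n : ℕ, ((M * n + 1 : ℕ) : ℝ) * (4 * hi * r ^ n) ^ d) := by
      rw [ENNReal.ofReal_tsum_of_nonneg (fun n => by positivity) hsum]
      exact tsum_congr hfr
    rw [this]
    exact ENNReal.ofReal_ne_top
  have htail := ENNReal.tendsto_sum_nat_add f hfsum
  -- the covers
  let t : ∀ N : ℕ, (Σ i : ℕ, Fin (M * (i + N) + 1)) → Set ℝ := fun N x =>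
    J a lo hi (x.1 + N) x.2
  have key : μH[d] (E a lo hi) ≤ liminf (fun N => ∑' x, Metric.ediam (t N x) ^ d) atTop := by
    refine hausdorffMeasure_le_liminf_tsum (ι := fun N => (Σ i : ℕ, Fin (M * (i + N) + 1))) d _
      (fun N => ENNReal.ofReal (4 * hi * r ^ N)) ?_ t ?_ ?_
    · have h3 : Tendsto (fun N : ℕ => 4 * hi * r ^ N) atTop (𝓝 (4 * hi * 0)) :=
        (tendsto_pow_atTop_nhds_zero_of_lt_one hr0.le hr1).const_mul _
      have h4 := ENNReal.tendsto_ofReal h3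
      simpa using h4
    · filter_upwards [eventually_ge_atTop n0] with N hN x
      refine (J_ediam ha hlo (h2 _ (by omega))).trans (ENNReal.ofReal_le_ofReal ?_)
      refine mul_le_mul_of_nonneg_left ?_ (by positivity)
      exact pow_le_pow_of_le_one hr0.le hr1.le (by omega)
    · filter_upwards [eventually_ge_atTop n0] with N hN b hb
      obtain ⟨n, hn, m, hm⟩ := E_sub ha hlo hb N
      have hmn := J_m ha hlo hM (h2 n (by omega)) hm
      rw [mem_iUnion]
      have e : n - N + N = n := by omega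
      refine ⟨⟨n - N, ⟨m, ?_⟩⟩, ?_⟩
      · rw [e]; omega
      · show b ∈ J a lo hi (n - N + N) m
        rwa [e]
  have key2 : liminf (fun N => ∑' x, Metric.ediam (t N x) ^ d) atTop ≤
      liminf (fun N => ∑' k, f (k + N)) atTop := by
    refine liminf_le_liminf ?_
    filter_upwards [eventually_ge_atTop n0] with N hN
    rw [ENNReal.tsum_sigma']
    refine ENNReal.tsum_le_tsum fun i => ?_
    calc ∑' x : Fin (M * (i + N) + 1), Metric.ediam (t N ⟨i, x⟩) ^ d
        ≤ ∑' _ : Fin (M * (i + N) + 1), ENNReal.ofReal (4 * hi * r ^ (i + N)) ^ d := by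
          refine ENNReal.tsum_le_tsum fun x => ?_
          refine ENNReal.rpow_le_rpow ?_ hd.le
          exact J_ediam ha hlo (h2 _ (by omega))
      _ = f (i + N) := by
          rw [tsum_fintype, Finset.sum_const, Finset.card_univ, Fintype.card_fin, nsmul_eq_mul, hf]
  have key3 : liminf (fun N => ∑' k, f (k + N)) atTop = 0 := htail.liminf_eq
  exact le_antisymm (key.trans (key2.trans key3.le)) bot_le

theorem dim_E {a lo hi : ℝ} (ha : 1 < a) (hlo : 1 < lo) (hhi : 0 < hi) : dimH (E a lo hi) = 0 := by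
  refine le_antisymm (ENNReal.le_of_forall_pos_le_add fun ε hε _ => ?_) bot_le
  rw [zero_add]
  refine dimH_le_of_hausdorffMeasure_ne_top ?_
  rw [haus_E ha hlo hhi (NNReal.coe_pos.2 hε)]
  exact ENNReal.zero_ne_top

end Pool.Agent.Y923.NC
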