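import Mathlib

/-!
# Generic bases with infinitely many pairs `(n, m)` such that `|a ^ n - b ^ m| ≤ x`
-/

set_option autoImplicit false

namespace Pool.Agent.Y923.NC

open Real Filter Set Polynomial
open scoped Topology

/-- bases `a` with a very near coincidence, exponent at least `N` -/
def U (b : ℝ) (N : ℕ) : Set ℝ :=
  {a | ∃ n m : ℕ, N ≤ n ∧ |a ^ n - b ^ m| < 1 / ((N : ℝ) + 1)} ∪ Iio 1

theorem U_open (b : ℝ) (N : ℕ) : IsOpen (U b N) := by
  refine IsOpen.union ?_ isOpen_Iio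
  have : {a : ℝ | ∃ n m : ℕ, N ≤ n ∧ |a ^ n - b ^ m| < 1 / ((N : ℝ) + 1)} =
      ⋃ (n : ℕ) (m : ℕ) (_ : N ≤ n), {a : ℝ | |a ^ n - b ^ m| < 1 / ((N : ℝ) + 1)} := by
    ext a
    simp
  rw [this]
  refine isOpen_iUnion fun n => isOpen_iUnion fun m => isOpen_iUnion fun _ => ?_
  exact isOpen_lt (by fun_prop) continuous_const

theorem U_dense {b : ℝ} (hb : 1 < b) (N : ℕ) : Dense (U b N) := by
  rw [Metric.dense_iff]
  intro x r hr
  rcases lt_or_ge (x - r / 2) 1 with h | h
  · refine ⟨x - r / 2, ?_, Or.inr h⟩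
    rw [Metric.mem_ball, Real.dist_eq]
    have : x - r / 2 - x = -(r / 2) := by ring
    rw [this, abs_neg, abs_of_pos (by linarith)]
    linarith
  · have hB : 0 < log b := log_pos hb
    have h1 : log (x - r / 2) / log b < log x / log b := by
      rw [div_lt_div_iff_of_pos_right hB]
      exact log_lt_log (by linarith) (by linarith)
    obtain ⟨q, hq1, hq2⟩ := exists_rat_btwn h1
    have h0 : 0 ≤ log (x - r / 2) / log b := div_nonneg (log_nonneg h) hB.le
    have hq0 : 0 < q := by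
      have : (0 : ℝ) < q := lt_of_le_of_lt h0 hq1
      exact_mod_cast this
    rw [div_lt_iff₀ hB] at hq1
    rw [lt_div_iff₀ hB] at hq2
    set y := exp (q * log b) with hy
    have hy1 : x - r / 2 < y := by
      rw [hy, ← log_lt_iff_lt_exp (by linarith)]
      exact hq1
    have hy2 : y < x := by
      rw [hy, ← lt_log_iff_exp_lt (by linarith)]
      exact hq2
    refine ⟨y, ?_, Or.inl ⟨q.den * (N + 1), q.num.toNat * (N + 1), ?_, ?_⟩⟩
    · rw [Metric.mem_ball, Real.dist_eq, abs_lt]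
      constructor <;> linarith
    · calc N ≤ 1 * (N + 1) := by omega
        _ ≤ q.den * (N + 1) := Nat.mul_le_mul_right _ q.den_pos
    · have e : y ^ (q.den * (N + 1)) = b ^ (q.num.toNat * (N + 1)) := by
        rw [pow_mul, pow_mul]
        congr 1
        rw [hy, ← exp_nat_mul]
        have h2 : (q.den : ℝ) * (q * log b) = (q.num.toNat : ℝ) * log b := by
          have h3 : (q.num.toNat : ℤ) = q.num := Int.toNat_of_nonneg (Rat.num_nonneg.2 hq0.le)
          have h4 : (q.den : ℝ) * q = (q.num.toNat : ℝ) := by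
            have h5 : (q.den : ℚ) * q = (q.num.toNat : ℚ) := by
              rw [Rat.den_mul_eq_num]
              exact_mod_cast h3.symm
            exact_mod_cast h5
          rw [← mul_assoc, h4]
        rw [h2, exp_nat_mul, exp_log (by linarith)]
      rw [e, sub_self, abs_zero]
      positivity

/-- the numbers algebraic over `ℚ[b]` -/
def AL (b : ℝ) : Set ℝ := {a | IsAlgebraic (Algebra.adjoin ℚ {b}) a}

theorem AL_countable (b : ℝ) : (AL b).Countable := by
  have hX : Countable ℚ[X] := by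
    rw [← Cardinal.mk_le_aleph0_iff]
    exact (Polynomial.cardinalMk_le_max).trans (max_le Cardinal.mk_le_aleph0 le_rfl)
  have : Countable (Algebra.adjoin ℚ {b}) := by
    rw [Algebra.adjoin_singleton_eq_range_aeval]
    exact Set.countable_range (Polynomial.aeval b : ℚ[X] → ℝ)
  exact Algebraic.countable (Algebra.adjoin ℚ {b}) ℝ

/-- the generic set -/
def G (b : ℝ) : Set ℝ := ((⋂ N : ℕ, U b N) ∩ (AL b)ᶜ) ∩ Ioi 1

theorem G_Gd (b : ℝ) : IsGδ (G b) :=
  ((IsGδ.iInter fun N => (U_open b N).isGδ).inter (AL_countable b).isGδ_compl).inter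
    isOpen_Ioi.isGδ

theorem G_dense {b : ℝ} (hb : 1 < b) : Ioi 1 ⊆ closure (G b) := by
  have h1 : Dense (⋂ N : ℕ, U b N) :=
    dense_iInter_of_isOpen_nat (U_open b) (U_dense hb)
  have h2 : Dense ((⋂ N : ℕ, U b N) ∩ (AL b)ᶜ) :=
    h1.inter_of_Gδ (IsGδ.iInter fun N => (U_open b N).isGδ) (AL_countable b).isGδ_compl
      ((AL_countable b).dense_compl ℝ)
  have h3 := h2.open_subset_closure_inter (isOpen_Ioi (a := (1 : ℝ)))
  rwa [inter_comm] at h3

theorem G_inf {a b : ℝ} (h : a ∈ G b) {x : ℝ} (hx : 0 < x) :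
    {p : ℕ × ℕ | |a ^ p.1 - b ^ p.2| ≤ x}.Infinite := by
  obtain ⟨⟨hU, -⟩, ha⟩ := h
  rw [mem_iInter] at hU
  obtain ⟨K, hK⟩ := exists_nat_gt (1 / x)
  intro hfin
  obtain ⟨B, hB⟩ := (hfin.image Prod.fst).bddAbove
  rcases hU (max K (B + 1)) with ⟨n, m, hn, hm⟩ | h1
  · have h2 : n ≤ B := by
      apply hB
      refine ⟨(n, m), ?_, rfl⟩
      show |a ^ n - b ^ m| ≤ x
      refine hm.le.trans ?_
      have h3 : (K : ℝ) ≤ ((max K (B + 1) : ℕ) : ℝ) := by exact_mod_cast le_max_left _ _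
      rw [div_lt_iff₀ hx] at hK
      rw [div_le_iff₀ (by positivity)]
      nlinarith
    have h3 : B + 1 ≤ n := (le_max_right _ _).trans hn
    omega
  · exact absurd (show a < 1 from h1) (not_lt.2 (le_of_lt (show 1 < a from ha)))

theorem mult_indep {a b : ℝ} (ha : 1 < a) (hb : 1 < b)
    (h : Transcendental (Algebra.adjoin ℚ {b}) a) (n m : ℤ) (he : a ^ n = b ^ m) :
    n = 0 ∧ m = 0 := by
  have hA : 0 < log a := log_pos ha
  have hB : 0 < log b := log_pos hb
  have h1 : (n : ℝ) * log a = m * log b := by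
    have := congrArg log he
    rwa [log_zpow, log_zpow] at this
  have h2 : |(n : ℝ)| * log a = |(m : ℝ)| * log b := by
    have := congrArg abs h1
    rwa [abs_mul, abs_mul, abs_of_pos hA, abs_of_pos hB] at this
  have h3 : a ^ n.natAbs = b ^ m.natAbs := by
    apply log_injOn_pos (by show 0 < a ^ n.natAbs; positivity)
      (by show 0 < b ^ m.natAbs; positivity)
    rw [log_pow, log_pow, Nat.cast_natAbs, Nat.cast_natAbs]
    push_cast
    exact h2
  have hn : n = 0 := by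
    by_contra hn
    apply h
    refine ⟨X ^ n.natAbs - C ((⟨b, Algebra.self_mem_adjoin_singleton ℚ b⟩ :
      Algebra.adjoin ℚ {b}) ^ m.natAbs), ?_, ?_⟩
    · exact X_pow_sub_C_ne_zero (Int.natAbs_pos.2 hn) _
    · rw [map_sub, map_pow, aeval_X, aeval_C, map_pow, h3]
      exact sub_self _
  refine ⟨hn, ?_⟩
  rw [hn] at h1
  push_cast at h1
  rw [zero_mul, eq_comm, mul_eq_zero] at h1
  rcases h1 with h1 | h1
  · exact_mod_cast h1
  · exact absurd h1 hB.ne'

theorem generic (b : ℝ) (hb : 1 < b) : ∃ G : Set ℝ, IsGδ G ∧ G ⊆ Ioi 1 ∧ Ioi 1 ⊆ closure G ∧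
    ∀ a ∈ G, Transcendental (Algebra.adjoin ℚ {b}) a ∧
      (∀ n m : ℤ, a ^ n = b ^ m → n = 0 ∧ m = 0) ∧
      ∀ x : ℝ, 0 < x → {p : ℕ × ℕ | |a ^ p.1 - b ^ p.2| ≤ x}.Infinite := by
  refine ⟨G b, G_Gd b, fun a ha => ha.2, G_dense hb, fun a ha => ?_⟩
  have h1 : Transcendental (Algebra.adjoin ℚ {b}) a := ha.1.2
  exact ⟨h1, mult_indep ha.2 hb h1, fun x hx => G_inf ha hx⟩

end Pool.Agent.Y923.NC
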