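import Pool.Agent.Y923.NC.Dim

/-!
# Metric theory of near-coincidences: conclusion
-/

set_option autoImplicit false

namespace Pool.Agent.Y923.NC

open Real Filter Set MeasureTheory Asymptotics
open scoped ENNReal NNReal Topology

/-- pairs with `|a ^ n - b ^ m| ≤ x` -/
def PR (a b x : ℝ) : Set (ℕ × ℕ) := {p | |a ^ p.1 - b ^ p.2| ≤ x}

/-- the exceptional set: rational `log a / log b`, or infinitely many near misses -/
def Ex (a : ℝ) : Set ℝ :=
  {b | 1 < b ∧ ∃ r : ℚ, (r : ℝ) = log a / log b} ∪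
    ⋃ k : ℕ, E a (1 + 1 / ((k : ℝ) + 1)) ((k : ℝ) + 2)

theorem dim_Ex {a : ℝ} (ha : 1 < a) : dimH (Ex a) = 0 := by
  unfold Ex
  rw [dimH_union, dimH_iUnion]
  refine le_antisymm (max_le (le_of_eq ?_) (le_of_eq ?_)) bot_le
  · apply dimH_countable
    refine (Set.countable_range fun r : ℚ => exp (log a / r)).mono ?_
    rintro b ⟨hb, r, hr⟩
    refine ⟨r, ?_⟩
    have h1 : 0 < log a := log_pos ha
    have h2 : 0 < log b := log_pos hb
    show exp (log a / r) = b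
    rw [hr, div_div_eq_mul_div, mul_div_assoc, mul_comm, div_mul_cancel₀ _ h1.ne',
      exp_log (by linarith)]
  · simp only [ENNReal.iSup_eq_zero]
    intro k
    refine dim_E ha ?_ (by positivity)
    have : (0 : ℝ) < 1 / ((k : ℝ) + 1) := by positivity
    linarith

theorem not_Ex {a b : ℝ} (hb : 1 < b) (h : b ∉ Ex a) :
    Irrational (log a / log b) ∧ (Pool.Agent.H491R3.PE.SS a b).Finite := by
  constructor
  · rintro ⟨r, hr⟩
    exact h (Or.inl ⟨hb, r, hr⟩)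
  · by_contra hcon
    apply h
    right
    rw [mem_iUnion]
    obtain ⟨k1, hk1⟩ := exists_nat_gt (1 / (b - 1))
    obtain ⟨k2, hk2⟩ := exists_nat_gt b
    refine ⟨k1 + k2, ?_, ?_, hcon⟩
    · have h1 : 0 < b - 1 := by linarith
      rw [div_lt_iff₀ h1] at hk1
      have h2 : (0 : ℝ) ≤ k2 := Nat.cast_nonneg _
      have h3 : (0 : ℝ) ≤ k1 := Nat.cast_nonneg _
      have h4 : 1 / (((k1 + k2 : ℕ) : ℝ) + 1) ≤ b - 1 := by
        rw [div_le_iff₀ (by positivity)]
        push_cast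
        nlinarith [mul_nonneg h1.le h2, mul_nonneg h1.le h3]
      linarith
    · push_cast
      have h3 : (0 : ℝ) ≤ k1 := Nat.cast_nonneg _
      linarith

theorem count {a b : ℝ} (ha : 1 < a) (hb : 1 < b) (h : b ∉ Ex a) :
    ∃ C : ℝ, ∀ x : ℝ, 2 ≤ x → (PR a b x).Finite ∧
      |((PR a b x).ncard : ℝ) - log x ^ 2 / (log a * log b)| ≤ C * log x := by
  obtain ⟨hirr, hfin⟩ := not_Ex hb h
  obtain ⟨C, hC⟩ := Pool.Agent.H491R3.PE.countS ha hb hirr
    (fun x => hfin.subset fun p hp => hp.1)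
  refine ⟨C + ((Pool.Agent.H491R3.PE.SS a b).ncard : ℝ) / log 2, fun x hx => ?_⟩
  obtain ⟨h1, h2⟩ := hC x hx
  refine ⟨h1, ?_⟩
  have h3 : ((Pool.Agent.H491R3.PE.SX a b x).ncard : ℝ) ≤
      ((Pool.Agent.H491R3.PE.SS a b).ncard : ℝ) := by
    have hsub : Pool.Agent.H491R3.PE.SX a b x ⊆ Pool.Agent.H491R3.PE.SS a b := fun p hp => hp.1
    exact_mod_cast Set.ncard_le_ncard hsub hfin
  have h4 : ((Pool.Agent.H491R3.PE.SS a b).ncard : ℝ) ≤
      ((Pool.Agent.H491R3.PE.SS a b).ncard : ℝ) / log 2 * log x := by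
    have h5 : 0 < log 2 := log_pos (by norm_num)
    have h6 : log 2 ≤ log x := log_le_log (by norm_num) hx
    rw [div_mul_eq_mul_div, le_div_iff₀ h5]
    exact mul_le_mul_of_nonneg_left h6 (Nat.cast_nonneg _)
  have h7 : |((PR a b x).ncard : ℝ) - log x ^ 2 / (log a * log b)| ≤
      |((PR a b x).ncard : ℝ) - log x ^ 2 / (log a * log b) -
        ((Pool.Agent.H491R3.PE.SX a b x).ncard : ℝ)| +
        ((Pool.Agent.H491R3.PE.SX a b x).ncard : ℝ) := by
    have h8 := abs_add_le (((PR a b x).ncard : ℝ) - log x ^ 2 / (log a * log b) -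
        ((Pool.Agent.H491R3.PE.SX a b x).ncard : ℝ)) ((Pool.Agent.H491R3.PE.SX a b x).ncard : ℝ)
    rw [sub_add_cancel, abs_of_nonneg (Nat.cast_nonneg _ : (0 : ℝ) ≤
      ((Pool.Agent.H491R3.PE.SX a b x).ncard : ℝ))] at h8
    exact h8
  calc _ ≤ _ := h7
    _ ≤ C * log x + ((Pool.Agent.H491R3.PE.SS a b).ncard : ℝ) / log 2 * log x :=
        add_le_add h2 (h3.trans h4)
    _ = _ := by ring

theorem equiv_of_count {a b : ℝ} (ha : 1 < a) (hb : 1 < b)
    (h : ∃ C : ℝ, ∀ x : ℝ, 2 ≤ x → (PR a b x).Finite ∧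
      |((PR a b x).ncard : ℝ) - log x ^ 2 / (log a * log b)| ≤ C * log x) :
    (fun x : ℝ => ((PR a b x).ncard : ℝ)) ~[atTop] (fun x : ℝ => log x ^ 2 / (log a * log b)) := by
  obtain ⟨C, hC⟩ := h
  have hA : 0 < log a := log_pos ha
  have hB : 0 < log b := log_pos hb
  have h1 : ((fun x : ℝ => ((PR a b x).ncard : ℝ)) - fun x : ℝ => log x ^ 2 / (log a * log b))
      =O[atTop] fun x : ℝ => log x := by
    refine IsBigO.of_bound C ?_
    filter_upwards [eventually_ge_atTop 2] with x hx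
    have h2 : 0 ≤ log x := log_nonneg (by linarith)
    rw [Real.norm_eq_abs, Real.norm_of_nonneg h2]
    exact (hC x hx).2
  have h2 : (fun x : ℝ => log x) =o[atTop] (fun x : ℝ => log x ^ 2 / (log a * log b)) := by
    have h3 : (fun x : ℝ => log x) =o[atTop] (fun x : ℝ => log x ^ 2) := by
      have h4 := (isLittleO_pow_pow_atTop_of_lt (𝕜 := ℝ) (p := 1) (q := 2) (by norm_num)).comp_tendsto
        Real.tendsto_log_atTop
      simpa [Function.comp_def] using h4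
    refine h3.trans_isBigO ?_
    refine IsBigO.of_bound (log a * log b) (Eventually.of_forall fun x => ?_)
    rw [norm_div, Real.norm_of_nonneg (mul_pos hA hB).le]
    rw [mul_div_cancel₀ _ (mul_pos hA hB).ne']
  exact h1.trans_isLittleO h2

theorem main (a : ℝ) (ha : 1 < a) : ∃ E : Set ℝ, dimH E = 0 ∧ ∀ b : ℝ, 1 < b → b ∉ E →
    (∃ C : ℝ, ∀ x : ℝ, 2 ≤ x → (PR a b x).Finite ∧
      |((PR a b x).ncard : ℝ) - log x ^ 2 / (log a * log b)| ≤ C * log x) ∧
    (fun x : ℝ => ((PR a b x).ncard : ℝ)) ~[atTop]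
      (fun x : ℝ => log x ^ 2 / (log a * log b)) :=
  ⟨Ex a, dim_Ex ha, fun _ hb hbE =>
    ⟨count ha hb hbE, equiv_of_count ha hb (count ha hb hbE)⟩⟩

end Pool.Agent.Y923.NC
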